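import Pool.Agent.J4H20.CI.Stm

/-! Project CI (helper20, MP_e3ee0c_gt), parts COC and CC. -/

open scoped Topology ContDiff Manifold
open Set Metric Filter Pool.Agent.Helper186 Pool.Agent.H826R2.Wein Pool.Agent.J4H20.CI

noncomputable section

namespace Pool.Agent.J4H75.CI

set_option autoImplicit false
set_option linter.unusedSectionVars false

universe u v

theorem t_COC : S_COC.{u, v} := by
  intro E _ _ _ N _ _ _ _ _ m A μ hμ hLOC y
  by_contra hcon
  push Not at hcon
  -- a sequence far from the stabiliser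
  obtain ⟨w, -, hw⟩ := exists_seq_of_forall_finset_exists (α := Fin m → ℝ) (fun _ => True)
    (fun a b => ∀ g : Fin m → ℝ, A.act g y = y → ‖a‖ + 1 < ‖b - g‖) (by
      intro s _
      obtain ⟨b, hb⟩ := hcon (∑ a ∈ s, (‖a‖ + 1))
      refine ⟨b, trivial, fun a ha g hg => ?_⟩
      refine lt_of_le_of_lt ?_ (hb g hg)
      exact Finset.single_le_sum (f := fun a : Fin m → ℝ => ‖a‖ + 1)
        (fun a _ => by positivity) ha)
  obtain ⟨z, hz⟩ := exists_clusterPt_of_compactSpace (map (fun k => A.act (w k) y) atTop)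
  obtain ⟨U, σ, ε, hU, hzU, -, hσ, -, htr, -⟩ := hLOC E N m A μ hμ z
  have hcont : ContinuousAt σ z := (hσ.continuousOn).continuousAt (hU.mem_nhds hzU)
  have hball : {x | x ∈ U ∧ ‖σ x - σ z‖ < 1 / 2} ∈ 𝓝 z := by
    have h1 : σ ⁻¹' (Metric.ball (σ z) (1 / 2)) ∈ 𝓝 z :=
      hcont.preimage_mem_nhds (Metric.ball_mem_nhds _ (by norm_num))
    filter_upwards [hU.mem_nhds hzU, h1] with x hx hx'
    refine ⟨hx, ?_⟩
    rwa [mem_preimage, Metric.mem_ball, dist_eq_norm] at hx'
  have hfreq : ∃ᶠ k in atTop, A.act (w k) y ∈ {x | x ∈ U ∧ ‖σ x - σ z‖ < 1 / 2} := by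
    have h1 := (clusterPt_iff_frequently.1 hz) _ hball
    exact frequently_map.1 h1
  rw [frequently_atTop] at hfreq
  obtain ⟨j, -, hj⟩ := hfreq 0
  obtain ⟨k, hjk, hk⟩ := hfreq (j + 1)
  have hlt : j < k := hjk
  set a := w j with ha
  set b := w k with hb
  have hμ' : μ (A.act a y) = μ (A.act b y) := by rw [hμ.inv, hμ.inv]
  have h1 := htr _ hj.1 _ hk.1 hμ'
  set δ : Fin m → ℝ := σ (A.act b y) - σ (A.act a y) with hδ
  have hδn : ‖δ‖ < 1 := by
    have e : δ = (σ (A.act b y) - σ z) - (σ (A.act a y) - σ z) := by rw [hδ]; abel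
    rw [e]
    refine (norm_sub_le _ _).trans_lt ?_
    have := hj.2
    have := hk.2
    linarith
  have h2 : A.act (δ + a) y = A.act b y := by rw [A.add]; exact h1
  have h3 : A.act (b - (δ + a)) y = y := by
    have h4 : A.act (-(δ + a)) (A.act b y) = y := by
      rw [← h2, ← A.add, neg_add_cancel, A.zero]
    rw [← A.add] at h4
    rwa [sub_eq_neg_add]
  have h5 := hw j k hlt (b - (δ + a)) h3
  rw [← ha, ← hb, sub_sub_cancel] at h5
  have h6 := norm_add_le δ a
  linarith

theorem t_CC : S_CC.{u, v} := by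
  intro E _ _ _ M _ _ _ k N x₀ a ha s
  have haN : a ∈ N := connectedComponentIn_subset _ _ ha
  -- a ball in the target
  obtain ⟨r, hr, hball⟩ := Metric.isOpen_iff.1 s.φ.open_target (s.φ a) (s.φ.map_source s.mem)
  let O : Set M := s.φ.source ∩ s.φ ⁻¹' (Metric.ball (s.φ a) r)
  have hO : IsOpen O := s.φ.isOpen_inter_preimage Metric.isOpen_ball
  let φ := s.φ.restrOpen O hO
  have hsrc : ∀ x, x ∈ φ.source ↔ x ∈ s.φ.source ∧ s.φ x ∈ Metric.ball (s.φ a) r := fun x =>
    ⟨fun h => h.2, fun h => ⟨h.1, h⟩⟩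
  -- the part of `N` in `O` is connected
  have hcon : IsPreconnected (N ∩ O) := by
    have e : N ∩ O = s.φ.symm '' ({e | s.j (s.p e) = e} ∩ Metric.ball (s.φ a) r) := by
      ext x
      constructor
      · rintro ⟨hxN, hx, hxb⟩
        exact ⟨s.φ x, ⟨(s.iff x hx).1 hxN, hxb⟩, s.φ.left_inv hx⟩
      · rintro ⟨e, ⟨he, heb⟩, rfl⟩
        have het := hball heb
        have h1 : s.φ.symm e ∈ s.φ.source := s.φ.map_target het
        have h2 : s.φ (s.φ.symm e) = e := s.φ.right_inv het
        refine ⟨(s.iff _ h1).2 (by rw [h2]; exact he), h1, ?_⟩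
        rw [mem_preimage, h2]
        exact heb
    rw [e]
    refine IsPreconnected.image ?_ _ ?_
    · refine Convex.isPreconnected ?_
      refine Convex.inter ?_ (convex_ball _ _)
      intro x hx y hy t t' _ _ _
      simp only [mem_ofPred_eq] at hx hy ⊢
      rw [map_add, map_smul, map_smul, map_add, map_smul, map_smul, hx, hy]
    · exact s.φ.continuousOn_symm.mono (fun e he => hball he.2)
  have haO : a ∈ O := ⟨s.mem, Metric.mem_ball_self hr⟩
  have hsub : N ∩ O ⊆ connectedComponentIn N x₀ := by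
    rw [connectedComponentIn_eq ha]
    exact hcon.subset_connectedComponentIn ⟨haN, haO⟩ inter_subset_left
  refine ⟨⟨φ, (hsrc a).2 haO, ?_, ?_, s.j, s.p, s.pj, ?_⟩, rfl, rfl, rfl⟩
  · exact s.smooth.mono (fun x hx => ((hsrc x).1 hx).1)
  · exact s.smooth_symm.mono (fun e he => he.1)
  · intro x hx
    have hx' := (hsrc x).1 hx
    constructor
    · intro h
      exact (s.iff x hx'.1).1 (connectedComponentIn_subset _ _ h)
    · intro h
      exact hsub ⟨(s.iff x hx'.1).2 h, hx'⟩

end Pool.Agent.J4H75.CI
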