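import Pool.Agent.J4H20.CI.Stm

/-! Project CI (helper20, MP_e3ee0c_gt), part NC: the contact submanifold of lowest rank. -/

open scoped Topology ContDiff Manifold
open Set Metric Filter Pool.Agent.Helper186 Pool.Agent.H826R2.Wein Pool.Agent.J4H20.CI

noncomputable section

namespace Pool.Agent.J4H75.CI

set_option autoImplicit false
set_option linter.unusedSectionVars false

universe u v

section lin

variable {V W : Type*} [AddCommGroup V] [Module ℝ V] [FiniteDimensional ℝ V]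
  [AddCommGroup W] [Module ℝ W] [FiniteDimensional ℝ W]

lemma finrank_range_flip (b : V →ₗ[ℝ] W →ₗ[ℝ] ℝ) :
    Module.finrank ℝ (LinearMap.range b) = Module.finrank ℝ (LinearMap.range b.flip) := by
  have h1 := LinearMap.finrank_range_dualMap_eq_finrank_range b.flip
  rw [← h1]
  have h2 : b = b.flip.dualMap.comp (Module.evalEquiv ℝ V : V →ₗ[ℝ] _) := by
    ext c w
    rfl
  have h3 : LinearMap.range b = LinearMap.range b.flip.dualMap := by
    conv_lhs => rw [h2]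
    rw [LinearMap.range_comp_of_range_eq_top]
    exact LinearEquiv.range _
  rw [h3]

/-- if a family of functionals has rank at most `r` and its restriction to the image of `D` has a
common kernel of dimension at most `dim - r`, then the restriction is injective -/
lemma ker_restrict {E' : Type*} [AddCommGroup E'] [Module ℝ E'] [FiniteDimensional ℝ E']
    (L : V →ₗ[ℝ] W →ₗ[ℝ] ℝ) (D : E' →ₗ[ℝ] W) (r : ℕ)
    (h1 : Module.finrank ℝ (LinearMap.range L) ≤ r)
    (h2 : Module.finrank ℝ (LinearMap.ker (L.compl₂ D).flip) + r ≤ Module.finrank ℝ E')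
    {c : V} (hc : ∀ v, L c (D v) = 0) : L c = 0 := by
  have h3 := LinearMap.finrank_range_add_finrank_ker (L.compl₂ D).flip
  have h4 := finrank_range_flip (L.compl₂ D)
  have h5 : r ≤ Module.finrank ℝ (LinearMap.range (L.compl₂ D)) := by omega
  have h6 := LinearMap.finrank_range_add_finrank_ker (L.compl₂ D)
  have h7 := LinearMap.finrank_range_add_finrank_ker L
  have h8 : LinearMap.ker L ≤ LinearMap.ker (L.compl₂ D) := by
    intro x hx
    rw [LinearMap.mem_ker] at hx ⊢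
    ext v
    rw [LinearMap.compl₂_apply, hx]
    rfl
  have h9 : LinearMap.ker L = LinearMap.ker (L.compl₂ D) :=
    Submodule.eq_of_le_of_finrank_le h8 (by omega)
  have h10 : c ∈ LinearMap.ker (L.compl₂ D) := by
    rw [LinearMap.mem_ker]
    ext v
    exact hc v
  rw [← h9] at h10
  exact h10

/-- the linear algebra at a point -/
lemma nc_point {E' : Type*} [AddCommGroup E'] [Module ℝ E'] [FiniteDimensional ℝ E']
    (om : W →ₗ[ℝ] W →ₗ[ℝ] ℝ) (b : W →ₗ[ℝ] ℝ) (X : V →ₗ[ℝ] W) (D : E' →ₗ[ℝ] W)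
    (Y : V →ₗ[ℝ] E') (κ₀ : V) (d : ℕ) (hD : Function.Injective D) (hDY : ∀ c, D (Y c) = X c)
    (hanti : ∀ u v, om u v = -om v u) (hb : b (X κ₀) = 1) (hom : ∀ v, om (X κ₀) v = 0)
    (hnd : ∀ u, b u = 0 → (∀ v, b v = 0 → om u v = 0) → u = 0)
    (hd : Module.finrank ℝ (LinearMap.range X) = d) (hE' : Module.finrank ℝ E' = 2 * d - 1)
    (hT : ∀ u : E', (∀ c, om (X c) (D u) = 0) → ∃ c, X c = D u)
    (u : E') (hu : b (D u) = 0) (huv : ∀ v, b (D v) = 0 → om (D u) (D v) = 0) : u = 0 := by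
  have hX0 : X κ₀ ≠ 0 := by
    intro h
    rw [h, map_zero] at hb
    exact zero_ne_one hb
  -- all vectors
  have hall : ∀ v, om (D u) (D v) = 0 := by
    intro v
    have h1 : b (D (v - b (D v) • Y κ₀)) = 0 := by
      rw [map_sub, map_smul, map_sub, map_smul, hDY, hb]
      simp
    have h2 := huv _ h1
    rw [map_sub, map_smul, map_sub, map_smul, hDY, hanti (D u) (X κ₀), hom] at h2
    simpa using h2
  obtain ⟨c, hc⟩ := hT u (fun c => by rw [hanti, ← hDY, hall, neg_zero])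
  -- the rank of the functionals
  set L : V →ₗ[ℝ] W →ₗ[ℝ] ℝ := om.comp X with hL
  have hLrank : Module.finrank ℝ (LinearMap.range L) + 1 ≤ d := by
    have h1 := LinearMap.finrank_range_add_finrank_ker L
    have h2 := LinearMap.finrank_range_add_finrank_ker X
    have hle : LinearMap.ker X ≤ LinearMap.ker L := LinearMap.ker_le_ker_comp X om
    have hlt : LinearMap.ker X < LinearMap.ker L := by
      refine lt_of_le_of_ne hle (fun heq => hX0 ?_)
      have h3 : κ₀ ∈ LinearMap.ker L := by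
        rw [LinearMap.mem_ker]
        ext w
        exact hom w
      rw [← heq] at h3
      exact h3
    have h3 := Submodule.finrank_lt_finrank_of_lt hlt
    omega
  have hker : Module.finrank ℝ (LinearMap.ker (L.compl₂ D).flip) ≤ d := by
    have h1 : (LinearMap.ker (L.compl₂ D).flip).map D ≤ LinearMap.range X := by
      rintro _ ⟨v, hv, rfl⟩
      obtain ⟨c', hc'⟩ := hT v (fun c' => by
        have := DFunLike.congr_fun (LinearMap.mem_ker.1 hv) c'
        exact this)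
      exact ⟨c', hc'⟩
    have h2 := (Submodule.equivMapOfInjective D hD (LinearMap.ker (L.compl₂ D).flip)).finrank_eq
    rw [h2, ← hd]
    exact Submodule.finrank_mono h1
  have hLc : L c = 0 := by
    refine ker_restrict L D (d - 1) (by omega) ?_ (fun v => ?_)
    · rw [hE']
      omega
    · show om (X c) (D v) = 0
      rw [hc, hall]
  have h1 : X c = 0 := by
    refine hnd _ (by rw [hc, hu]) (fun v _ => ?_)
    have := DFunLike.congr_fun hLc v
    exact this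
  rw [hc] at h1
  exact hD (by rw [h1, map_zero])

end lin

section mfd

variable {E : Type u} [NormedAddCommGroup E] [NormedSpace ℝ E] [FiniteDimensional ℝ E]
  {M : Type v} [TopologicalSpace M] [ChartedSpace E M] [IsManifold 𝓘(ℝ, E) ∞ M]
  {β : (x : M) → TangentSpace 𝓘(ℝ, E) x →L[ℝ] ℝ} {m : ℕ} (A : VS β m)
  {E' : Type} [NormedAddCommGroup E'] [NormedSpace ℝ E'] [FiniteDimensional ℝ E']
  {C : Set M} (S : TH607.Slices (E := E) E' C) [cs : ChartedSpace E' C]
  (hcs : cs = S.charted)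

/-- the exterior derivative as a bilinear form -/
def omL (β : (x : M) → TangentSpace 𝓘(ℝ, E) x →L[ℝ] ℝ) (x : M) : E →ₗ[ℝ] E →ₗ[ℝ] ℝ :=
  (ContinuousLinearMap.coeLM ℝ).comp
    ((show E →L[ℝ] E →L[ℝ] ℝ from extDerL 𝓘(ℝ, E) β x) : E →ₗ[ℝ] E →L[ℝ] ℝ)

lemma omL_apply (x : M) (u v : E) : omL β x u v = extDer 𝓘(ℝ, E) β x u v := rfl

/-- the form as a linear map -/
def bL (β : (x : M) → TangentSpace 𝓘(ℝ, E) x →L[ℝ] ℝ) (x : M) : E →ₗ[ℝ] ℝ :=
  (show E →L[ℝ] ℝ from β x : E →L[ℝ] ℝ)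

lemma bL_apply (x : M) (u : E) : bL β x u = β x u := rfl

variable (E E') in
/-- the derivative of the inclusion -/
def Dv (z : C) : E' →L[ℝ] E := mfderiv 𝓘(ℝ, E') 𝓘(ℝ, E) (Subtype.val : C → M) z

include hcs in
lemma smooth_val : ContMDiff 𝓘(ℝ, E') 𝓘(ℝ, E) ∞ (Subtype.val : C → M) := by
  subst hcs
  exact S.contMDiff_val

include hcs in
lemma inj_Dv (z : C) : Function.Injective (Dv E E' z : E' → E) := by
  subst hcs
  exact S.injective_mfderiv_val z

include hcs in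
lemma smooth_of_val {F : Type*} [NormedAddCommGroup F] [NormedSpace ℝ F] {H : Type*}
    [TopologicalSpace H] {I : ModelWithCorners ℝ F H}
    {N : Type*} [TopologicalSpace N] [ChartedSpace H N] {g : N → C}
    (hg : ContMDiff I 𝓘(ℝ, E) ∞ (fun x => (g x : M))) : ContMDiff I 𝓘(ℝ, E') ∞ g := by
  subst hcs
  exact S.contMDiff_of_val hg

include hcs in
/-- the tangent vectors satisfy the linear equation of the slice chart -/
lemma tangent_eq (a : C) (u : E') :
    (S.s a).j ((S.s a).p (mfderiv 𝓘(ℝ, E) 𝓘(ℝ, E) (S.s a).φ (a : M) (Dv E E' a u))) =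
      (mfderiv 𝓘(ℝ, E) 𝓘(ℝ, E) (S.s a).φ (a : M) (Dv E E' a u) : E) := by
  set s := S.s a
  have h1 : HasMFDerivAt 𝓘(ℝ, E') 𝓘(ℝ, E) (Subtype.val : C → M) a
      (mfderiv 𝓘(ℝ, E') 𝓘(ℝ, E) (Subtype.val : C → M) a) :=
    ((smooth_val S hcs).mdifferentiableAt (by simp)).hasMFDerivAt
  have h2 : HasMFDerivAt 𝓘(ℝ, E) 𝓘(ℝ, E) s.φ (a : M) (mfderiv 𝓘(ℝ, E) 𝓘(ℝ, E) s.φ (a : M)) :=
    ((s.smooth.contMDiffAt (s.φ.open_source.mem_nhds s.mem)).mdifferentiableAt
      (by simp)).hasMFDerivAt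
  have h3 := HasMFDerivAt.comp a (g := s.φ) (f := (Subtype.val : C → M)) h2 h1
  have h4 : HasMFDerivAt 𝓘(ℝ, E) 𝓘(ℝ, E) (s.j.comp s.p) (s.φ (a : M)) (s.j.comp s.p) :=
    (s.j.comp s.p).hasFDerivAt.hasMFDerivAt
  have h5 := HasMFDerivAt.comp a (g := (s.j.comp s.p : E → E))
    (f := s.φ ∘ (Subtype.val : C → M)) h4 h3
  have h6 : (s.φ ∘ (Subtype.val : C → M)) =ᶠ[𝓝 a]
      ((s.j.comp s.p : E → E) ∘ s.φ ∘ (Subtype.val : C → M)) := by
    have h7 : {x : C | (x : M) ∈ s.φ.source} ∈ 𝓝 a :=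
      (s.φ.open_source.preimage continuous_subtype_val).mem_nhds s.mem
    filter_upwards [h7] with x hx
    exact ((s.iff _ hx).1 x.2).symm
  have h7 := h5.congr_of_eventuallyEq h6
  have h8 := hasMFDerivAt_unique h7 h3
  exact DFunLike.congr_fun h8 u

variable (hinv : ∀ θ, ∀ x ∈ C, A.act θ x ∈ C)

/-- the restricted action -/
def actC (θ : Fin m → ℝ) (z : C) : C := ⟨A.act θ z, hinv θ z z.2⟩

include hcs in
lemma smooth_actC : ContMDiff (𝓘(ℝ, Fin m → ℝ).prod 𝓘(ℝ, E')) 𝓘(ℝ, E') ∞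
    (fun p : (Fin m → ℝ) × C => actC A hinv p.1 p.2) := by
  refine smooth_of_val S hcs ?_
  exact A.smooth.comp (contMDiff_fst.prodMk ((smooth_val S hcs).comp contMDiff_snd))

variable [IsManifold 𝓘(ℝ, E') ∞ C]

/-- the restricted action as an action preserving the pulled back form -/
def actB : VS (pullForm 𝓘(ℝ, E) 𝓘(ℝ, E') (Subtype.val : C → M) β) m where
  act := actC A hinv
  smooth := smooth_actC A S hcs hinv
  zero z := Subtype.ext (A.zero _)
  add θ θ' z := Subtype.ext (A.add θ θ' _)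
  strict := by
    intro θ z u
    have h1 : HasMFDerivAt 𝓘(ℝ, E') 𝓘(ℝ, E') (actC A hinv θ) z
        (mfderiv 𝓘(ℝ, E') 𝓘(ℝ, E') (actC A hinv θ) z) := by
      have h : ContMDiff 𝓘(ℝ, E') 𝓘(ℝ, E') ∞ (actC A hinv θ) :=
        (smooth_actC A S hcs hinv).comp (contMDiff_const.prodMk contMDiff_id)
      exact (h.mdifferentiableAt (by simp)).hasMFDerivAt
    have h2 : HasMFDerivAt 𝓘(ℝ, E') 𝓘(ℝ, E) (Subtype.val : C → M) (actC A hinv θ z)
        (mfderiv 𝓘(ℝ, E') 𝓘(ℝ, E) (Subtype.val : C → M) (actC A hinv θ z)) :=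
      ((smooth_val S hcs).mdifferentiableAt (by simp)).hasMFDerivAt
    have h3 := HasMFDerivAt.comp z h2 h1
    have h4 : HasMFDerivAt 𝓘(ℝ, E') 𝓘(ℝ, E) (Subtype.val : C → M) z
        (mfderiv 𝓘(ℝ, E') 𝓘(ℝ, E) (Subtype.val : C → M) z) :=
      ((smooth_val S hcs).mdifferentiableAt (by simp)).hasMFDerivAt
    have h5 : HasMFDerivAt 𝓘(ℝ, E) 𝓘(ℝ, E) (A.act θ) (z : M)
        (mfderiv 𝓘(ℝ, E) 𝓘(ℝ, E) (A.act θ) (z : M)) :=
      ((A.smooth_right θ).mdifferentiableAt (by simp)).hasMFDerivAt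
    have h6 := HasMFDerivAt.comp z h5 h4
    have h7 : (A.act θ ∘ (Subtype.val : C → M)) = (Subtype.val : C → M) ∘ actC A hinv θ := rfl
    rw [h7] at h6
    have h8 := DFunLike.congr_fun (hasMFDerivAt_unique h3 h6) u
    have h9 := A.strict θ (z : M) (mfderiv 𝓘(ℝ, E') 𝓘(ℝ, E) (Subtype.val : C → M) z u)
    have h10 := congrArg (fun w : E => (show E →L[ℝ] ℝ from β (A.act θ (z : M))) w) h8
    exact h10.trans h9

lemma actB_act (θ : Fin m → ℝ) (z : C) :
    (((actB A S hcs hinv).act θ z : C) : M) = A.act θ (z : M) := rfl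

lemma Dv_X (c : Fin m → ℝ) (z : C) :
    Dv E E' z ((actB A S hcs hinv).X c z) = A.X c (z : M) := by
  have h1 : HasMFDerivAt 𝓘(ℝ, Fin m → ℝ) 𝓘(ℝ, E') (fun θ => (actB A S hcs hinv).act θ z) 0
      (mfderiv 𝓘(ℝ, Fin m → ℝ) 𝓘(ℝ, E') (fun θ => (actB A S hcs hinv).act θ z) 0) :=
    (((actB A S hcs hinv).smooth_left z).mdifferentiableAt (by simp)).hasMFDerivAt
  have h2 : HasMFDerivAt 𝓘(ℝ, E') 𝓘(ℝ, E) (Subtype.val : C → M)
      ((actB A S hcs hinv).act 0 z)
      (mfderiv 𝓘(ℝ, E') 𝓘(ℝ, E) (Subtype.val : C → M) ((actB A S hcs hinv).act 0 z)) :=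
    ((smooth_val S hcs).mdifferentiableAt (by simp)).hasMFDerivAt
  have h3 := HasMFDerivAt.comp (0 : Fin m → ℝ) h2 h1
  have h4 : HasMFDerivAt 𝓘(ℝ, Fin m → ℝ) 𝓘(ℝ, E) (fun θ => A.act θ (z : M)) 0
      (mfderiv 𝓘(ℝ, Fin m → ℝ) 𝓘(ℝ, E) (fun θ => A.act θ (z : M)) 0) :=
    ((A.smooth_left (z : M)).mdifferentiableAt (by simp)).hasMFDerivAt
  have h5 : ((Subtype.val : C → M) ∘ fun θ => (actB A S hcs hinv).act θ z) =
      fun θ => A.act θ (z : M) := rfl
  rw [h5] at h3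
  have h6 := DFunLike.congr_fun (hasMFDerivAt_unique h3 h4) c
  have h7 : ∀ w : C, w = z → ∀ v : E', Dv E E' w v = Dv E E' z v := by
    rintro _ rfl v; rfl
  exact (h7 _ ((actB A S hcs hinv).zero z) _).symm.trans h6

include hcs in
lemma extDer_val (hβ : SmoothForm β) (z : C) (u v : E') :
    extDer 𝓘(ℝ, E') (pullForm 𝓘(ℝ, E) 𝓘(ℝ, E') (Subtype.val : C → M) β) z u v =
      omL β (z : M) (Dv E E' z u) (Dv E E' z v) :=
  extDer_pull (smooth_val S hcs) hβ z u v

lemma isReeb_B (hβ : IsContact β) {κ₀ : Fin m → ℝ} (hR : IsReeb β (A.X κ₀)) :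
    IsReeb (pullForm 𝓘(ℝ, E) 𝓘(ℝ, E') (Subtype.val : C → M) β)
      ((actB A S hcs hinv).X κ₀) := by
  constructor
  · intro z
    have h1 := hR.unit (z : M)
    have h2 := congrArg (fun w : E => bL β (z : M) w) (Dv_X A S hcs hinv κ₀ z)
    exact h2.trans h1
  · intro z v
    refine (extDer_val S hcs hβ.smooth z _ v).trans ?_
    rw [Dv_X A S hcs hinv κ₀ z]
    exact hR.kernel (z : M) _

lemma od_B (z : C) : (actB A S hcs hinv).od z = A.od (z : M) := by
  unfold VA.od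
  have h1 : (LinearMap.range ((actB A S hcs hinv).XL z)).map (Dv E E' z : E' →ₗ[ℝ] E) =
      LinearMap.range (A.XL (z : M)) := by
    rw [← LinearMap.range_comp]
    congr 1
    exact LinearMap.ext (fun c => Dv_X A S hcs hinv c z)
  rw [← h1]
  exact (Submodule.equivMapOfInjective (Dv E E' z : E' →ₗ[ℝ] E) (inj_Dv S hcs z)
    (LinearMap.range ((actB A S hcs hinv).XL z))).finrank_eq

include hcs hinv in
lemma isContact_B (hβ : IsContact β) {κ₀ : Fin m → ℝ} (hR : IsReeb β (A.X κ₀)) (d : ℕ)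
    (hod : ∀ x ∈ C, A.od x = d) (hE' : Module.finrank ℝ E' = 2 * d - 1)
    (hT : ∀ (a : C) (u : E),
      (S.s a).j ((S.s a).p (mfderiv 𝓘(ℝ, E) 𝓘(ℝ, E) (S.s a).φ (a : M) u)) =
        (mfderiv 𝓘(ℝ, E) 𝓘(ℝ, E) (S.s a).φ (a : M) u : E) →
      (∀ c, dForm 𝓘(ℝ, E) (A.H c) (a : M) u = 0) → ∃ c, (A.X c (a : M) : E) = u) :
    IsContact (pullForm 𝓘(ℝ, E) 𝓘(ℝ, E') (Subtype.val : C → M) β) := by
  have hreeb := isReeb_B A S hcs hinv hβ hR
  refine ⟨smoothForm_pull (smooth_val S hcs) hβ.smooth, ?_, ?_⟩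
  · intro z h0
    have h1 := hreeb.unit z
    rw [h0] at h1
    exact zero_ne_one h1
  · intro z u hu huv
    have hanti : ∀ a b, omL β (z : M) a b = -omL β (z : M) b a := fun a b =>
      extDer_antisymm (z : M) a b
    refine nc_point (omL β (z : M)) (bL β (z : M)) (A.XL (z : M)) (Dv E E' z : E' →ₗ[ℝ] E)
      ((actB A S hcs hinv).XL z) κ₀ d (inj_Dv S hcs z) (fun c => Dv_X A S hcs hinv c z) hanti
      (hR.unit (z : M)) (fun v => hR.kernel (z : M) v)
      (fun a ha h => hβ.nondeg (z : M) a ha h) (hod _ z.2) hE' ?_ u hu ?_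
    · intro w hw
      refine hT z (Dv E E' z w) (tangent_eq S hcs z w) (fun c => ?_)
      have h1 := A.dH hβ.smooth c (z : M) (Dv E E' z w)
      have h2 : extDer 𝓘(ℝ, E) β (z : M) (A.X c (z : M)) (Dv E E' z w) = 0 := hw c
      rw [h2, neg_zero] at h1
      exact h1
    · intro v hv
      exact (extDer_val S hcs hβ.smooth z u v).symm.trans (huv v hv)

end mfd

theorem t_NC : S_NC.{u, v} := by
  intro E _ _ _ M _ _ _ _ β hβ m A κ₀ hR d C hCc hCconn hinv hod S hT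
  let csC : ChartedSpace (Fin (2 * d - 1) → ℝ) C := S.charted
  have hM : IsManifold 𝓘(ℝ, Fin (2 * d - 1) → ℝ) ∞ C := S.isManifold
  have : CompactSpace C := isCompact_iff_compactSpace.1 hCc
  have : ConnectedSpace C := isConnected_iff_connectedSpace.1 hCconn
  refine ⟨C, inferInstance, csC, hM, inferInstance, inferInstance, inferInstance,
    (Subtype.val : C → M), pullForm 𝓘(ℝ, E) 𝓘(ℝ, Fin (2 * d - 1) → ℝ) (Subtype.val : C → M) β,
    actB A S rfl hinv, smooth_val S rfl, fun x => x.2, fun θ x => rfl, ?_, ?_, ?_⟩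
  · exact isContact_B A S rfl hinv hβ hR d hod (by simp) hT
  · exact isReeb_B A S rfl hinv hβ hR
  · intro x
    rw [od_B A S rfl hinv x]
    exact hod _ x.2

end Pool.Agent.J4H75.CI
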